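import Pool.Agent.Lib.MP_bdfe25_al.StF

/-! Orders of two permutations and of their product: the exact answer for all orders up to `n`. -/

namespace Pool.Agent.Results.MP_bdfe25_al.SharpRange

/-- `m` is a power of two with `n ≤ m + 1`, or `m = n = 6`.  For `1 < m ≤ n` these are the even
orders `m` for which every element of order `m` of the symmetric group on `n` points is odd. -/
def Forced (n m : ℕ) : Prop := (∃ k : ℕ, m = 2 ^ k ∧ n ≤ m + 1) ∨ (m = 6 ∧ n = 6)

theorem result (n a b c : ℕ) (ha : 1 < a) (hb : 1 < b) (hc : 1 < c) (han : a ≤ n) (hbn : b ≤ n)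
    (hcn : c ≤ n) :
    (∃ σ τ : Equiv.Perm (Fin n), orderOf σ = a ∧ orderOf τ = b ∧ orderOf (σ * τ) = c) ↔
      ¬ ((Forced n a ∧ Odd b ∧ Odd c) ∨ (Odd a ∧ Forced n b ∧ Odd c) ∨
        (Odd a ∧ Odd b ∧ Forced n c) ∨ (Forced n a ∧ Forced n b ∧ Forced n c)) :=
  Pool.Agent.Lib.MP_bdfe25_al.sharp ha hb hc han hbn hcn

/-- The statement of Q1 (known, not claimed as new) is the case `a, b, c ≤ n - 2`. -/
theorem q1 (n a b c : ℕ) (ha : 1 < a) (hb : 1 < b) (hc : 1 < c) (han : a + 2 ≤ n)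
    (hbn : b + 2 ≤ n) (hcn : c + 2 ≤ n) :
    ∃ σ τ : Equiv.Perm (Fin n), orderOf σ = a ∧ orderOf τ = b ∧ orderOf (σ * τ) = c := by
  have key : ∀ m, m + 2 ≤ n → ¬ Forced n m := by
    rintro m hm (⟨k, -, h⟩ | h) <;> omega
  refine (result n a b c ha hb hc (by omega) (by omega) (by omega)).2 ?_
  have h1 := key a han
  have h2 := key b hbn
  have h3 := key c hcn
  tauto

end Pool.Agent.Results.MP_bdfe25_al.SharpRange
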