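import Pool.Agent.Lib.MP_bdfe25_al.Glue

set_option autoImplicit false

open Equiv

namespace Pool.Agent.Results.MP_bdfe25_al.Signed

open Pool.Agent.Lib.MP_bdfe25_al

theorem sign_of_odd {n : ℕ} (x : Perm (Fin n)) (h : Odd (orderOf x)) : Perm.sign x = 1 := by
  have h1 : Perm.sign x ^ orderOf x = 1 := by rw [← map_pow, pow_orderOf_eq_one, map_one]
  rcases Int.units_eq_one_or (Perm.sign x) with h2 | h2
  · exact h2
  · rw [h2, h.neg_one_pow] at h1
    exact absurd h1 (by decide)

/-- Orders between `2` and `n - 2` of two permutations of `n` points and of their product can be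
prescribed together with the signs, the only condition being that odd order forces sign `1`. -/
theorem result (n a b c : ℕ) (ha : 1 < a) (hb : 1 < b) (hc : 1 < c) (han : a ≤ n - 2)
    (hbn : b ≤ n - 2) (hcn : c ≤ n - 2) (s t : ℤˣ) :
    (∃ σ τ : Perm (Fin n), orderOf σ = a ∧ orderOf τ = b ∧ orderOf (σ * τ) = c ∧
      Perm.sign σ = s ∧ Perm.sign τ = t) ↔
    ((Odd a → s = 1) ∧ (Odd b → t = 1) ∧ (Odd c → s * t = 1)) := by
  constructor
  · rintro ⟨σ, τ, rfl, rfl, rfl, rfl, rfl⟩
    exact ⟨sign_of_odd σ, sign_of_odd τ, fun h => by rw [← Perm.sign_mul, sign_of_odd _ h]⟩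
  · rintro ⟨h1, h2, h3⟩
    exact signed ha hb hc (by omega) (by omega) (by omega) (fun h => h1 (Nat.odd_iff.mpr h))
      (fun h => h2 (Nat.odd_iff.mpr h)) (fun h => h3 (Nat.odd_iff.mpr h))

end Pool.Agent.Results.MP_bdfe25_al.Signed
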